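import Pool.Agent.W477.GM.Stms

/-!
# Project GM: Extensionality, Foundation, Pairing, Union are forced
-/

set_option autoImplicit false
set_option linter.all false
set_option maxHeartbeats 1000000

namespace Pool.Agent.W477.GM.W585ZF1

open Pool.Agent.W477.GM

section

variable {P : Type 1}

/-- the index type of a name -/
def idx : Nm P → Type
  | .mk ι _ _ => ι

/-- the children of a name -/
def chd : (x : Nm P) → idx x → Nm P
  | .mk _ _ y => y

/-- the labels of a name -/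
def lab : (x : Nm P) → idx x → P → Prop
  | .mk _ U _ => U

variable [PartialOrder P] [OrderTop P]

theorem fmem_iff (w x : Nm P) (p : P) :
    fmem w x p ↔ ∀ q, q ≤ p → ∃ r, r ≤ q ∧ ∃ j : idx x, Lab (lab x j) r ∧ feq w (chd x j) r := by
  cases x
  rfl

theorem rk_lt (x : Nm P) (i : idx x) : rk (chd x i) < rk x := by
  cases x with
  | mk ι U y =>
    rw [rk]
    exact lt_of_lt_of_le (Order.lt_succ (rk (y i))) (Ordinal.le_iSup (fun i => Order.succ (rk (y i))) i)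

theorem hs_chd {S : SysData P} (hH : HsF P S) (x : Nm P) (hx : HS S x) (i : idx x) :
    HS S (chd x i) := by
  cases x with
  | mk ι U y => exact hH.child ι U y hx i

theorem ext {S : SysData P} (hE : EqF P) (hH : HsF P S) (a b : Nm P) (ha : HS S a)
    (hb : HS S b) (p : P) (h : ∀ x, HS S x → ∀ q, q ≤ p → (fmem x a q ↔ fmem x b q)) :
    feq a b p := by
  cases a with
  | mk ι U x =>
    cases b with
    | mk κ W y =>
      exact hE.ext ι U x κ W y p
        (fun i q hq => (h (x i) (hH.child ι U x ha i) q hq).1)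
        (fun j q hq => (h (y j) (hH.child κ W y hb j) q hq).2)

theorem axExt_holds {S : SysData P} (hE : EqF P) (hH : HsF P S) (hF : FcF P (HS S))
    (v : ℕ → Nm P) (hv : ∀ i, HS S (v i)) (p : P) : Fc (HS S) .axExt v p := by
  intro q hq h
  refine ext hE hH (v 0) (v 1) (hv 0) (hv 1) q fun x hx r hr => ?_
  have h1 := (hF.iff _ _ _ _).1 (h x hx) r hr
  simpa [Fc, Function.update] using h1

theorem axFound_holds {S : SysData P} (hE : EqF P) (hH : HsF P S) (hF : FcF P (HS S))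
    (v : ℕ → Nm P) (hv : ∀ i, HS S (v i)) (p : P) : Fc (HS S) .axFound v p := by
  intro q hq h
  rw [hF.ex] at h ⊢
  intro q1 hq1
  obtain ⟨x, hx⟩ : ∃ x, x = v 0 := ⟨_, rfl⟩
  have key : ∀ o : Ordinal.{0}, (∃ r, r ≤ q1 ∧ ∃ y, HS S y ∧ rk y = o ∧ fmem y x r) →
      ∃ r, r ≤ q1 ∧ ∃ y, HS S y ∧ fmem y x r ∧
        ∀ z, HS S z → ∀ s, s ≤ r → fmem z x s → ∀ t, t ≤ s → ¬ fmem z y t := by
    intro o
    induction o using WellFoundedLT.induction with
    | ind o ih =>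
      rintro ⟨r, hr, y, hy, hro, hm⟩
      by_cases hc : ∀ z, HS S z → ∀ s, s ≤ r → fmem z x s → ∀ t, t ≤ s → ¬ fmem z y t
      · exact ⟨r, hr, y, hy, hm, hc⟩
      · push Not at hc
        obtain ⟨z, hz, s, hs, hzx, t, ht, hzy⟩ := hc
        obtain ⟨r2, hr2, j, -, hj⟩ := (fmem_iff z y t).1 hzy t le_rfl
        refine ih (rk (chd y j)) ?_ ⟨r2, hr2.trans (ht.trans (hs.trans hr)), chd y j,
          hs_chd hH y hy j, rfl, ?_⟩
        · rw [← hro]
          exact rk_lt y j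
        · exact hE.mcongr _ _ _ _ _ hj (hE.refl x r2)
            (hE.mmono _ _ _ _ (hr2.trans ht) hzx)
  obtain ⟨r, hr, y, hy, hm⟩ := h q1 hq1
  have hm' : fmem y x r := by
    rw [hx]
    simpa [Fc, Function.update] using hm
  obtain ⟨r, hr, y, hy, hm, hc⟩ := key (rk y) ⟨r, hr, y, hy, rfl, hm'⟩
  refine ⟨r, hr, y, hy, ?_⟩
  rw [hF.and]
  refine ⟨by simpa [Fc, Function.update, ← hx] using hm, fun z hz s hs hzs => ?_⟩
  rw [hF.neg]
  intro t ht hzt
  exact hc z hz s hs (by simpa [Fc, Function.update, ← hx] using hzs) t ht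
    (by simpa [Fc, Function.update, ← hx] using hzt)

theorem axPair_holds {S : SysData P} (hP : PrF P) (hH : HsF P S) (hF : FcF P (HS S))
    (v : ℕ → Nm P) (hv : ∀ i, HS S (v i)) (p : P) : Fc (HS S) .axPair v p := by
  rw [Fm.axPair, hF.ex]
  intro q hq
  refine ⟨q, le_rfl, prN (v 0) (v 1), hH.pr _ _ (hv 0) (hv 1), fun w hw => ?_⟩
  rw [hF.iff]
  intro r hr
  rw [hF.or]
  have h1 := hP.mem_pr w (v 0) (v 1) r
  simpa [Fc, Function.update] using h1

/-- The formula of the union. -/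
def un : Fm := .ex 3 (.and (.mem 3 0) (.mem 2 3))

theorem fc_un {S : SysData P} (hF : FcF P (HS S)) (x w : Nm P) (v : ℕ → Nm P) (h0 : v 0 = x)
    (h2 : v 2 = w) (p : P) : Fc (HS S) un v p ↔
      ∀ q, q ≤ p → ∃ r, r ≤ q ∧ ∃ u, HS S u ∧ fmem u x r ∧ fmem w u r := by
  rw [un, hF.ex]
  refine forall_congr' fun q => forall_congr' fun _ => exists_congr fun r =>
    and_congr_right fun _ => exists_congr fun u => and_congr_right fun _ => ?_
  rw [hF.and]
  simp [Fc, Function.update, h0, h2]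

theorem union {S : SysData P} (hS : SysAx S) (hE : EqF P) (hA : ActF P) (hH : HsF P S)
    (hF : FcF P (HS S)) (h4 : P_SET) (h5 : P_DEC) (x : Nm P) (hx : HS S x) :
    ∃ Y, HS S Y ∧ ∀ w p, HS S w → (fmem w Y p ↔
      ∀ q, q ≤ p → ∃ r, r ≤ q ∧ ∃ u, HS S u ∧ fmem u x r ∧ fmem w u r) := by
  obtain ⟨κ, hκ⟩ : ∃ κ, κ = ((i : idx x) × idx (chd x i)) := ⟨_, rfl⟩
  obtain ⟨z, hz, hzc⟩ : ∃ z : κ → Nm P, (∀ k, HS S (z k)) ∧
      ∀ (i : idx x) (j : idx (chd x i)), ∃ k, z k = chd (chd x i) j := by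
    subst hκ
    exact ⟨fun k => chd (chd x k.1) k.2,
      fun k => hs_chd hH _ (hs_chd hH x hx k.1) k.2, fun i j => ⟨⟨i, j⟩, rfl⟩⟩
  refine h4 P S hS κ z (fun w p => ∀ q, q ≤ p → ∃ r, r ≤ q ∧ ∃ u, HS S u ∧ fmem u x r ∧ fmem w u r)
    hz ?_ ?_ ?_ ?_ ?_ ?_
  · intro y p q _ hq h r hr
    exact h r (hr.trans hq)
  · intro y p _ h q hq
    obtain ⟨r, hr, hr'⟩ := h q hq
    obtain ⟨s, hs, u, hu⟩ := hr' r le_rfl
    exact ⟨s, hs.trans hr, u, hu⟩
  · intro y y' p _ _ he h q hq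
    obtain ⟨r, hr, u, hu, h1, h2⟩ := h q hq
    exact ⟨r, hr, u, hu, h1, hE.mcongr _ _ _ _ _ (hE.mono _ _ _ _ (hr.trans hq) he)
      (hE.refl u r) h2⟩
  · obtain ⟨e, he⟩ := hH.supp x hx
    refine ⟨e, fun g hg y p _ h q hq => ?_⟩
    have hq' : g.symm q ≤ p := by
      rw [← g.symm_apply_apply p]
      exact g.symm.monotone hq
    obtain ⟨r, hr, u, hu, h1, h2⟩ := h _ hq'
    refine ⟨g r, ?_, act g u, hH.act g (hS.fsub e g hg) u hu, ?_, ?_⟩
    · rw [← g.apply_symm_apply q]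
      exact g.monotone hr
    · exact hE.mcongr _ _ _ _ _ (hE.refl _ _) (he g hg (g r)) ((hA.fmem g u x r).2 h1)
    · exact (hA.fmem g y u r).2 h2
  · obtain ⟨a, ha⟩ := hH.livs (Option κ) (fun o => o.elim x z) (by
      rintro (_ | k)
      · exact hx
      · exact hz k)
    refine ⟨a, fun k p h => ?_⟩
    have h1 := (fc_un hF x (z k) (Function.update (fun _ => x) 2 (z k)) (by simp) (by simp) p).2 h
    have h2 := (h5 P S hS).1 un (Function.update (fun _ => x) 2 (z k)) p a (by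
      intro i
      by_cases hi : i = 2
      · subst hi
        simpa using ha (some k)
      · simpa [Function.update, hi] using ha none) h1
    exact (fc_un hF x (z k) (Function.update (fun _ => x) 2 (z k)) (by simp) (by simp) _).1 h2
  · intro y p _ h
    obtain ⟨r, hr, u, hu, h1, h2⟩ := h p le_rfl
    obtain ⟨r1, hr1, i, -, hi⟩ := (fmem_iff u x r).1 h1 r le_rfl
    have h3 : fmem y (chd x i) r1 :=
      hE.mcongr _ _ _ _ _ (hE.refl _ _) hi (hE.mmono _ _ _ _ hr1 h2)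
    obtain ⟨r2, hr2, j, -, hj⟩ := (fmem_iff _ _ _).1 h3 r1 le_rfl
    obtain ⟨k, hk⟩ := hzc i j
    exact ⟨r2, hr2.trans (hr1.trans hr), k, by rw [hk]; exact hj⟩

theorem axUnion_holds {S : SysData P} (hS : SysAx S) (hE : EqF P) (hA : ActF P) (hH : HsF P S)
    (hF : FcF P (HS S)) (h4 : P_SET) (h5 : P_DEC)
    (v : ℕ → Nm P) (hv : ∀ i, HS S (v i)) (p : P) : Fc (HS S) .axUnion v p := by
  obtain ⟨Y, hY, hm⟩ := union hS hE hA hH hF h4 h5 (v 0) (hv 0)
  rw [Fm.axUnion, hF.ex]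
  intro q hq
  refine ⟨q, le_rfl, Y, hY, fun w hw => ?_⟩
  rw [hF.iff]
  intro r hr
  have h1 := fc_un hF (v 0) w (Function.update (Function.update v 1 Y) 2 w) (by simp [Function.update])
    (by simp) r
  rw [un] at h1
  rw [h1, ← hm w r hw]
  simp [Fc, Function.update]

end

/-- GM-ZF1 -/
theorem zf1_holds (h : P_EQ) (h1 : P_ACT) (h2 : P_FC) (h3 : P_HS) (h4 : P_SET) (h5 : P_DEC)
    (h6 : P_PR) : P_ZF1 := by
  intro P _ _ S hS v hv p
  exact ⟨axExt_holds (h P) (h3 P S hS) (h2 P (HS S)) v hv p,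
    axFound_holds (h P) (h3 P S hS) (h2 P (HS S)) v hv p,
    axPair_holds (h6 P) (h3 P S hS) (h2 P (HS S)) v hv p,
    axUnion_holds hS (h P) (h1 P) (h3 P S hS) (h2 P (HS S)) h4 h5 v hv p⟩

end Pool.Agent.W477.GM.W585ZF1
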